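import Pool.Agent.U273.UR.Main
import Pool.Agent.U231.FR.Re

/-!
# Finiteness of unramified cohomology of degree three for products with varieties of Fermat type

Let `κ` be a finite field with `q` elements, of characteristic `p`, and `𝒱` a class of smooth projective
varieties over `κ`, closed under products, with Chow groups `A` with rational coefficients and a Weil
cohomology theory `H` (framework of the starting library: `TheoryData`, `IsChow`, `IsWeil`). Let `X_i` be
varieties in `𝒱` **of Fermat type** of different prime degrees `N_i` and of lengths at most `s_i`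
(`IsFermatType`): the cohomology of `X_i` is generated by the classes of cycles and a subspace `T_i`, stable
under the Frobenius, such that each eigenvalue of the Frobenius on `T_i` is, up to a root of unity and a
power of `q`, a product `∏_{a ∈ A} g(θ ^ a)` of at most `s_i` Gauss sums over `κ`, where `θ` is a
multiplicative character of `κ` of order `N_i`, and where the multiset `A + p A + ⋯ + p ^ (f - 1) A`, `f` the
order of `p` modulo `N_i`, is not symmetric. By the theorem of Weil the diagonal hypersurfaces
`∑ c_j x_j ^ N = 0` of dimension `n` over `κ` (for `q ≡ 1` modulo `N`) and their powers and products are of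
this form with `s = n + 2` (for products: the sum of these numbers), if the classes with symmetric
`A + p A + ⋯` are algebraic; this is known for `p ≡ 1` modulo `N`, `c_j = 1` (linear subspaces; Ran, Shioda
and Katsura).

Let `Z` be **any** variety in `𝒱` such that the eigenvalues `β` of Frobenius on `H(Z)` are algebraic numbers
(theorem of Deligne), let `f_i` be the order of `p` modulo `N_i`, and suppose that
`N_i > 2 s_i f_i [ℚ(β ^ m) ∩ ℚ(ζ_{N_i}) : ℚ] + 1` for each `β` and some `m > 0` (`IsSmallBase`), and
`N_i > 2 s_i f_i + 1`. These are only conditions on the size of the primes `N_i` against the `s_i`, `f_i` and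
the Betti numbers of `Z`. Suppose that homologically trivial self-correspondences of degree zero of the
products are nilpotent. This is known for example if `Z` is dominated by a product of curves and the `X_i`
are diagonal hypersurfaces (Kimura; Shioda and Katsura).

**Theorem.** Suppose that the intersection pairings `CH^l(Z)_ℝ × CH^(dim Z - l)(Z)_ℝ → ℝ` are perfect for
`l = 0, 1, 2`. **This is known for every curve and every surface `Z`**: the group `Pic^0(Z)` is finite, and the
degree is an isomorphism on the rational group of zero-cycles (Bloch, Kato and Saito,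
Colliot-Thélène, Sansuc and Soulé). Let `V` be the product of `Z` and of finitely many pairwise different
`X_i`. Then **the unramified cohomology group `H^3_nr(V, ℚ/ℤ(2))` is finite**, including the
`p`-primary part.

For example, let `Z` be a surface (or a curve, or a point) which is dominated by a product of curves and
`X_i` diagonal hypersurfaces of any dimensions, of different prime degrees `N_i` dividing `p - 1`,
`N_i > 2 (dim X_i + 2) b + 1`, `b` the largest Betti number of `Z`: **`H^3_nr(Z × X_1 × ⋯ × X_r, ℚ/ℤ(2))` is
finite.** No case of the Tate conjecture is assumed for `Z`.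

The proof. Let `X = V`. By Bloch and Ogus, Merkurjev and Suslin (Gros and Suwa for the `p`-primary part)
the sequence `H^3(X, ℚ/ℤ(2)) → H^3_nr(X, ℚ/ℤ(2)) → CH^2(X) ⊗ ℚ/ℤ → H^4(X, ℚ/ℤ(2))` is exact, and the
first group is finite (Colliot-Thélène, Sansuc and Soulé, Gabber, Gros and Suwa); see
`UnramifiedCohomology`. The criterion (`unramifiedFinite` in `Pool.Agent.U273.UR.Main`): if
`CH^2(X)_ℝ × CH^(d-2)(X)_ℝ → ℝ` is perfect then `H^3_nr(X, ℚ/ℤ(2))` is finite. **So only the rational and
numerical equivalence in codimension two matters, not the Tate conjecture for `X`.** The kernel of the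
cycle map is orthogonal to `CH^(d-2)(X)`, every element of `CH^2(X) ⊗ ℚ/ℤ` is a sum `∑ e_i ⊗ t_i` for a
rational basis `e_i`, and if it is orthogonal to the elements of a basis of `CH^(d-2)(X)_ℚ` then the `t_i`
are killed by a fixed number. That the pairing for `V` in degree two is perfect if those of `Z` are in the
degrees at most two is the theorem of helper231 for MP_4960c7_ag (`Pool.Agent.U231.FR.Re`, Chow part:
library of helper876, `N876/CG`).
-/

set_option autoImplicit false

open Polynomial CategoryTheory AlgebraicGeometry

namespace Pool.Agent.Results.MP_859dd5_ag.FermatFactors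

open Pool.Agent.H914 Pool.Agent.H914.VarClass Pool.Agent.H914.VarClass.Obj Pool.Agent.W492.BB
  Pool.Agent.W484.CK Pool.Agent.Y154.BQ Pool.Agent.U231.FF Pool.Agent.U231.FR.Base
  Pool.Agent.U231.FR.Re Pool.Agent.U273.UR

/-- **Finiteness of `H^3_nr(V, ℚ/ℤ(2))` for products `V` of a curve, a surface, or any variety `Z` with
perfect intersection pairings in codimensions at most two, with varieties of Fermat type of large
different prime degrees.** -/
theorem result (p : ℕ) [Fact p.Prime] (κ : Type) [Field κ] [Fintype κ] [CharP κ p] {ι : Type}
    (N s : ι → ℕ) {𝒱 : VarClass κ} (A : TheoryData.{0, 0, 0} 𝒱 ℚ) [IsChow A] {K : Type} [Field K]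
    [IsAlgClosed K] [CharZero K] (H : WeilTheoryData.{0, 0, 0} A K) [IsWeil H] (τ : K →+* ℂ)
    (F : ∀ X : 𝒱.Obj, X ⟶ X) (X : ι → 𝒱.Obj) (Z : 𝒱.Obj)
    (h : IsFermatFamily p N s H τ F X Z) (hZ : ∀ l : ℤ, 0 ≤ l → l ≤ 2 → PerfectIn A Z l)
    (L : List ι) (hL : L.Nodup) : UnramifiedFinite A (productOf X Z L) := by
  have hS := isStandard_bridge h.standard
  refine unramifiedFinite (H := H) hS ?_
  refine ((main p κ N s A H τ F X Z h L hL).perfect 2).2 ?_
  intro l _ hl
  exact perfectIn_le_two hS hZ l hl

end Pool.Agent.Results.MP_859dd5_ag.FermatFactors
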