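import Mathlib
import Pool.Agent.Q29.EP.RowsCT
import Pool.Agent.U273.UR.Times

/-!
# Finiteness of unramified cohomology of degree three for products with abelian varieties with one half
# of all slope types of every CM field of degree `2 r ^ k`

Let `K i` (`i` in a finite set) be CM fields of degree `2 g i` which are pairwise independent: for
`i ≠ k` and all complex embeddings `φ` of `K i` and `ψ` of `K k` some automorphism of `ℂ` is the
identity on `φ (K i)` and the complex conjugation on `ψ (K k)` (this is no condition if there is
only one field). We fix an isomorphism `ν` of the algebraic closure of `ℚ_p` with `ℂ`; it defines a
`p`-adic valuation of `ℂ`, with the value one at `p`. Let `M i` be a function with integral values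
on the complex embeddings of `K i`, invariant under complex conjugation (the weights). A CM type
`Φ i` of `K i` (a choice of one element out of each complex conjugate pair of embeddings), `M i` and
a real number `κ ≠ 0` prescribe the slopes `(a + κ M) / 2` (at the embeddings in `Φ i`) and
`(a - κ M) / 2` (outside of `Φ i`) of a Weil number for `p ^ a` in `K i`. If `p` splits completely
in `K i` then, by Honda and Tate, all rational slopes between `0` and `a` that are symmetric in this
way occur for abelian varieties over finite fields. The case `M = 1`, `κ = a` is the ordinary case.

Let `π i` be Weil numbers for `q = p ^ a` that generate the fields `K i` and have the slope types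
`Φ i`, `M i` (`HasType`), and let `f i` be monic polynomials whose complex roots are conjugates of
`π i` (`IsPolyOf`), for instance the characteristic polynomials of Frobenius of the abelian
varieties in the isogeny classes of the `π i`. Let `A` be an abelian variety over the field with
`Q = q ^ s` elements which is isogenous to a product of powers of abelian varieties coming from the
field with `q` elements, with characteristic polynomials `f i`, and let `Z` be **any** smooth
projective variety over the field with `Q` elements such that

* the eigenvalues `ρ` of Frobenius on the cohomology of `Z` and their conjugates are independent
  of the fields `K i` (`Independent`): for each complex embedding `ψ` of `K i` there is an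
  automorphism `τ` of `ℂ` which fixes a power of `ρ` and is the complex conjugation on `ψ (K i)`.
  This is so if the eigenvalues have powers in a number field which is linearly disjoint from the
  normal closures of the `K i`, or powers in a totally real field (take for `τ` the complex
  conjugation);
* homologically trivial self-correspondences of degree zero of `A × Z` are nilpotent, for instance
  the motive of `Z` is finite-dimensional in the sense of Kimura and O'Sullivan. This is known for
  all varieties dominated by products of curves, and for their products with `A`.

**The property of the slope types** (`Q`, `UnramifiedTimes`): if the intersection pairings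
`CH^m(Z)_ℝ × CH^(dim Z - m)(Z)_ℝ → ℝ` are perfect for `m = 0, 1, 2`, then **the unramified cohomology
group `H^3_nr(A × Z, ℚ/ℤ(2))` is finite**. The assumption **is known for every curve and every
surface `Z`**: the group `Pic^0(Z)` is finite, and the degree is an isomorphism on the rational group of
zero-cycles (Bloch, Kato and Saito, Colliot-Thélène, Sansuc and Soulé). No case of the Tate
conjecture is assumed for `Z`. In particular, if `Z` is a point, `H^3_nr(A, ℚ/ℤ(2))` is finite.

**The theorem.** Let `K` be **any CM field of degree `2 g = 2 r ^ k`**, `r` a prime number, of
degree at least `16` if `r = 2`. Nothing is assumed about the Galois group of the normal closure of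
`K`, and nothing about the subfields of `K`.

* (`HalfOfAll`) For all weights `M` (odd if `r = 2`; if `r` is odd then `r` may divide some, but not
  all of them) the property `Q` is true for **at least one half of all `2 ^ g` types** of `K`.
* (`MostWithWeightsOne`) For the weights `M = 1` (for instance in the ordinary case) it is true for
  at least `(1 - 1 / r) 2 ^ g` of the types.
* (`OneOfTwo`) There is a set `B` of embeddings of `K`, stable under complex conjugation, such that
  for **every** type `Φ` it is true for `Φ` or for the symmetric difference of `Φ` and `B`.
* (`SixteenPercent`) There is a number `g₀` such that for every CM field that is **abelian over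
  `ℚ`**, of any degree `2 g ≥ 2 g₀`, and all odd weights it is true for at least 16 percent of all
  `2 ^ g` types; again nothing is assumed on the subfields.

All this is proved more generally for finitely many pairwise independent fields `K i`; the
proportions are then multiplied.

The proof. The criterion (`unramifiedFinite` in `Pool.Agent.U273.UR.Main`, also used in
`FermatFactors` and `PairwiseSlopeFields`): if the pairing `CH^2(X)_ℝ × CH^(d-2)(X)_ℝ → ℝ` is perfect, then
the group `H^3_nr(X, ℚ/ℤ(2))` is finite. For `X = A × Z` the pairing is perfect if those of `Z` are,
when there are no relations between the Weil numbers (library `Pool.Agent.Y1.CT`), and one half of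
all types have no relations (library `Pool.Agent.Q29.EP`).
-/

set_option autoImplicit false

namespace Pool.Agent.Results.MP_859dd5_ag.HalfOfAllTypes

open NumberField Module Pool.Agent.H204R3.CM Pool.Agent.H977R3.CM Pool.Agent.Y1.KN
  Pool.Agent.Y1.CT Pool.Agent.Q29.EP Pool.Agent.U273.UR

open Pool.Agent.Q29.DP (of_independent)

/-- The property of the slope types `Φ i` with the weights `M i`. -/
def Q : TypeProperty := fun _ _ ν _ _ K _ _ _ M Φ => ForAllTypes ν K M (UnramifiedTimes K) Φ

/-- **The group `H^3_nr(A × Z, ℚ/ℤ(2))` is finite for the abelian varieties `A` with one half of all
slope types of every CM field of degree `2 r ^ k`, and all independent varieties `Z` with perfect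
intersection pairings in codimensions at most two (curves, surfaces).** -/
theorem result : HalfOfAll Q ∧ MostWithWeightsOne Q ∧ OneOfTwo Q ∧ SixteenPercent Q := by
  have h : WithoutRelations Q := of_independent (P := fun _ K _ => UnramifiedTimes K)
    fun _ _ _ _ _ _ hQ hR => unramifiedTimes hQ hR
  exact ⟨halfOfAll h, mostWithWeightsOne h, oneOfTwo h, sixteenPercent h⟩

end Pool.Agent.Results.MP_859dd5_ag.HalfOfAllTypes
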