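import Pool.Agent.U273.UR.Main
import Pool.Agent.U173.PS.Re

/-!
# Finiteness of unramified cohomology of degree three for products of varieties whose slope fields meet
# pairwise in totally real fields

Let `𝒱` be a class of smooth projective varieties over the field `κ` with `p ^ m` elements, closed under
products, with Chow groups `A` with rational coefficients and a Weil cohomology theory `H` with an
algebraically closed field of coefficients (framework of the starting library: `TheoryData`, `IsChow`,
`IsWeil`), and fix a place `ι` above `p` of the field `ℚ̄` of algebraic numbers. A *slope field* of an
algebraic number `ν` is a subfield `L` of `ℚ̄` such that the automorphisms of `ℚ̄` over `L` do not change the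
absolute values at `ι` of the conjugates of `ν` (`HasSlopesIn`); a slope field of a variety is a slope field of
its Frobenius eigenvalues. (For example the reflex field of the CM type given by the slopes, for an
ordinary abelian variety and all its powers.)

Let `E` be a totally real field and let `X i` be varieties such that the cohomology of `X i` is generated
by the classes of cycles and a Frobenius-stable subspace on which all eigenvalues are Weil numbers with
slope field `L i`, and not supersingular (`IsGoodAlgebra`: this is the Tate conjecture for `X i` with
semisimplicity, if there are no supersingular eigenvalues in odd degrees). Suppose that the fields `L i`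
contain `E`, are normal over `E` with at most one exception, and meet **pairwise** in totally real fields
(`ArePairwise`). Let `Z` be **any** variety with a slope field `M` which contains `E` and meets each `L i` in
a totally real field (`IsSlopeFamily`). Suppose that homologically trivial self-correspondences of degree
zero of the products are nilpotent (known if `Z` and the `X i` are dominated by products of curves, by
Kimura and O'Sullivan).

**Theorem.** Suppose that the intersection pairings `CH^l(Z)_ℝ × CH^(dim Z - l)(Z)_ℝ → ℝ` are perfect for
`l = 0, 1, 2`. **This is known for every curve and every surface `Z`**: the group `Pic^0(Z)` is finite, and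
the degree is an isomorphism on the rational group of zero-cycles (Bloch, Kato and Saito,
Colliot-Thélène, Sansuc and Soulé). Let `V` be the product of `Z` and of finitely many pairwise different
`X i`. Then **the unramified cohomology group `H^3_nr(V, ℚ/ℤ(2))` is finite**, including the
`p`-primary part.

Nothing is assumed on the Tate conjecture for `Z`, on the size of the fields and of the Betti numbers, on
the relations between the eigenvalues of one `X i`, and on the composita of the fields. For example, `Z`
can be a surface dominated by a product of curves, or an abelian surface, and `X i` a product of varieties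
of Fermat type of degree `N_i` (or of abelian varieties with complex multiplication by the field of the
`N_i`-th roots of unity), with Tate conjecture, of any dimensions, for pairwise coprime numbers `N_i`.

The proof. By Bloch and Ogus, Merkurjev and Suslin (Gros and Suwa for the `p`-primary part) the sequence
`H^3(X, ℚ/ℤ(2)) → H^3_nr(X, ℚ/ℤ(2)) → CH^2(X) ⊗ ℚ/ℤ → H^4(X, ℚ/ℤ(2))` is exact for `X = V`, and the
first group is finite (Colliot-Thélène, Sansuc and Soulé, Gabber, Gros and Suwa); see
`UnramifiedCohomology`. The criterion (`unramifiedFinite` in `Pool.Agent.U273.UR.Main`, also used in
`FermatFactors`): if the pairing `CH^2(X)_ℝ × CH^(d-2)(X)_ℝ → ℝ` is perfect then `H^3_nr(X, ℚ/ℤ(2))` is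
finite. That the pairing for `V` in degree two is perfect if those of `Z` are in degrees at most two is
the theorem of helper173 for MP_4960c7_ag (`Pool.Agent.U173.PS.Re`): let `α i` be Frobenius eigenvalues on
the second parts of the `H(X i)` and `β` one on `H(Z)`, such that `β ∏ α i` is a power of `p` up to a root
of unity; the functions `2 log |g α i| - const` on the Galois group are odd and invariant under
`H i = Gal(ℚ̄ / L i)`, their sum is invariant under `Gal(ℚ̄ / M)`; the average over `H i` is central for
`L i` normal over `E` and kills the other functions, so `α i` is supersingular, a contradiction; the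
Künneth formula for the Chow groups follows (library of helper876, `N876/CG`).
-/

set_option autoImplicit false

open CategoryTheory AlgebraicGeometry

namespace Pool.Agent.Results.MP_859dd5_ag.PairwiseSlopeFields

open Pool.Agent.H914 Pool.Agent.H914.VarClass Pool.Agent.H914.VarClass.Obj Pool.Agent.W492.BB
  Pool.Agent.W484.CK Pool.Agent.Y154.BQ Pool.Agent.U231.FR.Base Pool.Agent.U231.FR.Re
  Pool.Agent.U173.PS Pool.Agent.U273.UR

/-- **Finiteness of `H^3_nr(V, ℚ/ℤ(2))` for products `V` of a curve, a surface, or any variety `Z` with
perfect intersection pairings in codimensions at most two, with varieties whose slope fields meet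
pairwise in totally real fields.** -/
theorem result {κ : Type} [Field κ] {𝒱 : VarClass κ} (A : TheoryData.{0, 0, 0} 𝒱 ℚ) [IsChow A]
    {C : Type} [Field C] [IsAlgClosed C] [CharZero C] (H : WeilTheoryData.{0, 0, 0} A C) [IsWeil H]
    {I : Type} (p m : ℕ) [Fact p.Prime] (ι : AlgebraicClosure ℚ →+* PadicAlgCl p)
    (E M : IntermediateField ℚ (AlgebraicClosure ℚ))
    (L : I → IntermediateField ℚ (AlgebraicClosure ℚ)) (F : ∀ X : 𝒱.Obj, X ⟶ X) (X : I → 𝒱.Obj)
    (Z : 𝒱.Obj) (h : IsSlopeFamily p m ι E M L H F X Z)
    (hnil : ∀ l : List I, Nilpotence H (productOf X Z l))
    (hZ : ∀ n : ℤ, 0 ≤ n → n ≤ 2 → PerfectIn A Z n) (l : List I) (hl : l.Nodup) :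
    UnramifiedFinite A (productOf X Z l) := by
  have hS := isStandard_bridge h.standard
  refine unramifiedFinite (H := H) hS ?_
  refine ((re_main h hnil l hl).perfect 2).2 ?_
  intro n _ hn
  exact perfectIn_le_two hS hZ n hn

end Pool.Agent.Results.MP_859dd5_ag.PairwiseSlopeFields
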