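import Pool.Agent.U926.SF.UnrDefs
import Pool.Agent.U926.SF.Ell

/-!
# Finiteness of unramified cohomology of hypersurfaces `g_0 + ⋯ + g_r = 0` over finite fields

Let `F` be a finite field and let `g_0, …, g_r` be nonsingular forms of degree `d ≥ 2`, prime to the
characteristic, over the algebraic closure of `F`, in separate sets of variables:

* `d = 3`: cubic forms in at most three variables each;
* `d = 4`: quartic forms in at most two variables each;
* `d ∣ 24`, `d ≠ 24` (`d = 2, 3, 4, 6, 8, 12`): forms in one variable each (Fermat hypersurfaces).

There is no restriction on the number of the forms, so the dimension of the hypersurface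
`X : g_0 + ⋯ + g_r = 0` is arbitrary.

**Theorem.** Let `X₀` be a variety over a finite extension of `F` which becomes isomorphic to `X` over
the algebraic closure. Then `H^3_nr(X₀, ℚ/ℤ(2))` is finite. The same is true for all products of such
hypersurfaces (of any degrees) with elliptic curves and all other varieties which are built from
products of elliptic curves, and for every variety which is built from such products: coverings
`w ^ m = F(x)` of the projective space (`m` a divisor of `d`), quotients and images under generically
finite morphisms, blow-ups of such products in such products, projective bundles over them.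

The known theorems which are used:

* the formal properties of the Chow groups (`IsChowProj`);
* `hT`, the theorem of Katsura and Shioda: `f(x) + g(y) = 0` is dominated by the product of
  `f(x) + z ^ d = 0` and `g(y) + w ^ d = 0`, blown up in the product of `f(x) = 0` and `g(y) = 0`;
* `hM`: the motives of plane cubic curves, of cubic surfaces, of the plane curves
  `f(x, y) + z ^ 4 = 0` and of the Fermat curves of the degrees `d ∣ 24`, `d ≠ 24`, are direct
  summands of motives of products of elliptic curves;
* `hE`: the theorem of Colliot-Thélène and Kahn for varieties built from products of elliptic curves.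
-/

universe u v

namespace Pool.Agent.Results.MP_859dd5_ag.SumsOfForms

open Pool.Agent.H914 Pool.Agent.W492.BB Pool.Agent.TH133 Pool.Agent.U926.SF

/-- **Finiteness of `H^3_nr(X₀, ℚ/ℤ(2))`** for the hypersurfaces `g_0 + ⋯ + g_r = 0` with equations in
separate sets of variables over finite fields, for their products with varieties built from products
of elliptic curves, and for all varieties which are built from these products. -/
theorem result {F : Type u} [Field F] [Finite F] {𝒱 : VarClass (AlgebraicClosure F)}
    {C : TheoryData.{u, v, 0} 𝒱 ℚ} [IsChowProj C] (T : Hypersurfaces 𝒱)
    (hT : ∀ d : ℕ, 2 ≤ d → (d : AlgebraicClosure F) ≠ 0 → IsKatsuraShioda C T d)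
    (hM : HaveEllipticMotives C T) (N : Unramified F 𝒱) (hE : FiniteIfElliptic C N)
    (X : 𝒱.Obj) (hX : IsBuiltFrom C (IsEllipticSum C T) X) : FiniteUnramified N X :=
  hE X (hX.trans fun _ hY => hY.isBuiltFrom hT hM)

end Pool.Agent.Results.MP_859dd5_ag.SumsOfForms
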